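import Pool.Agent.H78.G9.E3Ra
import Pool.Agent.H56.E.All

/-!
# Theorem (H), MP_c59857_nt, row E3R
-/

set_option autoImplicit false

namespace Pool.Agent.H78.G9

theorem pf_E3R : Pool.Agent.H6.G9.T_E3R := e3R_of Pool.Agent.H56.E.H56.G3.All.e3r

end Pool.Agent.H78.G9
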