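import Pool.Agent.H6.G9.Targets

/-!
# Theorem (H), MP_c59857_nt, row E3R: from the chain form of section 3 to the form of the board
-/

set_option autoImplicit false

namespace Pool.Agent.H78.G9

open Finset Pool.Agent.H6.N4D Pool.Agent.H93.GS Pool.Agent.H6.G9

/-- the chain form implies the form of the board -/
theorem e3R_of (h : ∀ th c : ℝ, 0 < th → th ≤ 1 → 0 < c → ∃ (ε : ℝ) (A X₀ : ℕ), 0 < ε ∧ 1 ≤ A ∧
    ∀ (X u : ℕ) (lam : ℕ → ℝ), X₀ ≤ X → Lio lam →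
      Real.log X ^ (19 / 20 : ℝ) ≤ u * Real.log 2 → (2 : ℝ) ^ A * u ≤ Real.log X ^ (24 / 25 : ℝ) →
      (∀ i < A, Hm th ε lam X (400 * u * 2 ^ i)) →
      te th lam X u - ε ≤ te th lam X (2 ^ A * u) → te th lam X u < c) : T_E3R := by
  intro th c hth hth1 hc
  obtain ⟨ε, A, X₀, hε, hA, hS⟩ := h th c hth hth1 hc
  have hl2 : 0 < Real.log 2 := Real.log_pos one_lt_two
  refine ⟨ε, 1 / Real.log 2, 400 * 2 ^ A, X₀, hε, by positivity, ?_, ?_⟩
  · have : 1 ≤ 2 ^ A := Nat.one_le_two_pow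
    omega
  intro X a lam hX hlio hC hD hHm hmono
  have h2A : (1 : ℝ) ≤ 2 ^ A := one_le_pow₀ (by norm_num)
  have ha0 : (0 : ℝ) ≤ a := Nat.cast_nonneg a
  refine hS X a lam hX hlio ?_ ?_ ?_ ?_
  · rw [one_div, inv_mul_le_iff₀ hl2] at hC
    linarith
  · push_cast at hD
    nlinarith [mul_nonneg (by positivity : (0 : ℝ) ≤ 2 ^ A) ha0]
  · intro i hi
    refine hHm _ ?_ ?_
    · have h1 : 1 ≤ 2 ^ i := Nat.one_le_two_pow
      calc a = 1 * a * 1 := by ring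
        _ ≤ 400 * a * 2 ^ i := Nat.mul_le_mul (Nat.mul_le_mul_right a (by norm_num)) h1
    · calc 400 * a * 2 ^ i ≤ 400 * a * 2 ^ A :=
            Nat.mul_le_mul_left _ (Nat.pow_le_pow_right (by norm_num) hi.le)
        _ = 400 * 2 ^ A * a := by ring
  · refine hmono a (2 ^ A * a) le_rfl ?_ ?_
    · exact Nat.le_mul_of_pos_left a (by positivity)
    · calc 2 ^ A * a = 1 * (2 ^ A * a) := by ring
        _ ≤ 800 * (2 ^ A * a) := Nat.mul_le_mul_right _ (by norm_num)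
        _ = 2 * (400 * 2 ^ A) * a := by ring

end Pool.Agent.H78.G9
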